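import Pool.Agent.H773.LK.Spec3

set_option autoImplicit false

noncomputable section

namespace Pool.Agent.H338.LK

open Pool.Agent.H773.LK
open MeasureTheory Filter Topology Set
open scoped InnerProductSpace

/-- mean velocity -/
def G (γ : ℝ → Pl) (p : ℝ × ℝ) : Pl := ∫ σ in (0 : ℝ)..1, deriv γ (p.1 + p.2 * σ)

theorem G_cont {γ : ℝ → Pl} (h : PerCurve γ) : Continuous (G γ) := by
  unfold G
  apply intervalIntegral.continuous_parametric_intervalIntegral_of_continuous'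
  have hd : Continuous (deriv γ) := h.smooth.continuous_deriv le_rfl
  exact hd.comp (by fun_prop)

theorem G_eq {γ : ℝ → Pl} (h : PerCurve γ) (t u : ℝ) : u • G γ (t, u) = γ (t + u) - γ t := by
  have hd : Continuous (deriv γ) := h.smooth.continuous_deriv le_rfl
  have hdiff : Differentiable ℝ γ := h.smooth.differentiable (by norm_num)
  have h1 : ∀ σ ∈ Set.uIcc (0 : ℝ) 1, HasDerivAt (fun σ => γ (t + u * σ)) (u • deriv γ (t + u * σ)) σ := by
    intro σ _
    have h2 : HasDerivAt (fun σ : ℝ => t + u * σ) u σ := by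
      simpa using ((hasDerivAt_id σ).const_mul u).const_add t
    exact (hdiff (t + u * σ)).hasDerivAt.scomp σ h2
  have h3 : IntervalIntegrable (fun σ => u • deriv γ (t + u * σ)) volume 0 1 := by
    apply Continuous.intervalIntegrable
    exact (hd.comp (by fun_prop)).const_smul u
  have h4 := intervalIntegral.integral_eq_sub_of_hasDerivAt h1 h3
  unfold G
  rw [← intervalIntegral.integral_smul, h4]
  simp

theorem G_ne {γ : ℝ → Pl} (h : PerCurve γ) (p : ℝ × ℝ) : 0 < ‖G γ p‖ := by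
  obtain ⟨t, u⟩ := p
  rw [norm_pos_iff]
  intro h0
  by_cases hu : u = 0
  · subst hu
    have : G γ (t, 0) = deriv γ t := by
      unfold G
      simp
    rw [this] at h0
    have := h.unit t
    rw [h0, norm_zero] at this
    exact zero_ne_one this
  · have := G_eq h t u
    rw [h0, smul_zero] at this
    have h2 := h.inj (sub_eq_zero.1 this.symm)
    exact hu (by linarith)

theorem per_int {γ : ℝ → Pl} {L : ℝ} {l : Pl} (hper : ∀ s, γ (s + L) = γ s + l) (n : ℤ) (s : ℝ) :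
    γ (s + n * L) = γ s + (n : ℝ) • l := by
  induction n using Int.induction_on generalizing s with
  | zero => simp
  | succ n ih =>
    have : s + ((n : ℤ) + 1 : ℤ) * L = (s + (n : ℤ) * L) + L := by push_cast; ring
    rw [this, hper, ih]
    push_cast
    rw [add_smul, one_smul, add_assoc]
  | pred n ih =>
    have h1 := hper (s + (-(n : ℤ) - 1 : ℤ) * L)
    have : s + (-(n : ℤ) - 1 : ℤ) * L + L = s + (-(n : ℤ) : ℤ) * L := by push_cast; ring
    rw [this, ih] at h1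
    have h2 : γ (s + (-(n : ℤ) - 1 : ℤ) * L) = γ s + ((-(n : ℤ) : ℤ) : ℝ) • l - l := by
      rw [h1]; simp
    rw [h2]
    push_cast
    rw [sub_smul, one_smul]
    abel

theorem lip {γ : ℝ → Pl} (h : PerCurve γ) (s t : ℝ) : ‖γ s - γ t‖ ≤ |s - t| := by
  have hdiff : Differentiable ℝ γ := h.smooth.differentiable (by norm_num)
  have := Convex.norm_image_sub_le_of_norm_deriv_le (f := γ) (C := 1) (s := univ)
    (fun x _ => hdiff x) (fun x _ => (h.unit x).le) convex_univ (mem_univ t) (mem_univ s)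
  simpa using this

theorem chord_arc {γ : ℝ → Pl} (h : PerCurve γ) :
    ∃ c : ℝ, 0 < c ∧ ∀ s t, c * |s - t| ≤ ‖γ s - γ t‖ := by
  obtain ⟨L, l, hL, hl, hper⟩ := h.per
  have hl0 : 0 < ‖l‖ := norm_pos_iff.2 hl
  -- large distances
  set R : ℝ := 2 * L * (‖l‖ + L) / ‖l‖ with hR
  have hR0 : 0 < R := by positivity
  have hbig : ∀ t u : ℝ, R ≤ u → ‖l‖ / (2 * L) * u ≤ ‖γ (t + u) - γ t‖ := by
    intro t u hu
    set n : ℤ := ⌊u / L⌋ with hn
    have h1 : (n : ℝ) ≤ u / L := Int.floor_le _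
    have h2 : u / L < n + 1 := Int.lt_floor_add_one _
    have h3 : (n : ℝ) * L ≤ u := by
      rwa [le_div_iff₀ hL] at h1
    have h4 : u < (n + 1) * L := by
      rwa [div_lt_iff₀ hL] at h2
    have h5 : γ (t + u) = γ (t + (u - n * L)) + (n : ℝ) • l := by
      rw [← per_int hper]
      congr 1
      ring
    have h6 := lip h (t + (u - n * L)) t
    have h7 : |t + (u - n * L) - t| ≤ L := by
      rw [abs_of_nonneg] <;> linarith
    have h8 : (n : ℝ) * ‖l‖ ≤ ‖(n : ℝ) • l‖ := by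
      rw [norm_smul]
      exact mul_le_mul_of_nonneg_right (le_abs_self _) hl0.le
    have h9 : ‖(n : ℝ) • l‖ ≤ ‖γ (t + u) - γ t‖ + ‖γ (t + (u - n * L)) - γ t‖ := by
      have : (n : ℝ) • l = (γ (t + u) - γ t) - (γ (t + (u - n * L)) - γ t) := by
        rw [h5]; abel
      rw [this]
      exact norm_sub_le _ _
    -- n ‖l‖ ≥ (u / L - 1) ‖l‖
    have h10 : (u / L - 1) * ‖l‖ ≤ (n : ℝ) * ‖l‖ := mul_le_mul_of_nonneg_right (by linarith) hl0.le
    have h11 : ‖l‖ / (2 * L) * R = ‖l‖ + L := by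
      rw [hR]; field_simp
    have h12 : ‖l‖ / (2 * L) * R ≤ ‖l‖ / (2 * L) * u := mul_le_mul_of_nonneg_left hu (by positivity)
    have h13 : (u / L - 1) * ‖l‖ = 2 * (‖l‖ / (2 * L) * u) - ‖l‖ := by
      field_simp
    linarith
  -- compactness
  obtain ⟨p, -, hp⟩ := (isCompact_Icc.prod isCompact_Icc : IsCompact (Icc (0 : ℝ) L ×ˢ Icc (0 : ℝ) R)).exists_isMinOn
    ⟨(0, 0), by simp [hL.le, hR0.le]⟩ (G_cont h).norm.continuousOn
  have hsmall : ∀ t u : ℝ, 0 ≤ u → u ≤ R → ‖G γ p‖ * u ≤ ‖γ (t + u) - γ t‖ := by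
    intro t u hu0 huR
    set n : ℤ := ⌊t / L⌋ with hn
    have h1 : (n : ℝ) ≤ t / L := Int.floor_le _
    have h2 : t / L < n + 1 := Int.lt_floor_add_one _
    have h3 : (n : ℝ) * L ≤ t := by
      rwa [le_div_iff₀ hL] at h1
    have h4 : t < (n + 1) * L := by
      rwa [div_lt_iff₀ hL] at h2
    have h5 : γ (t + u) - γ t = γ ((t - n * L) + u) - γ (t - n * L) := by
      have e1 : γ (t + u) = γ ((t - n * L) + u) + (n : ℝ) • l := by
        rw [← per_int hper]; congr 1; ring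
      have e2 : γ t = γ (t - n * L) + (n : ℝ) • l := by
        rw [← per_int hper]; congr 1; ring
      rw [e1, e2]; abel
    rw [h5, ← G_eq h, norm_smul, Real.norm_eq_abs, abs_of_nonneg hu0, mul_comm]
    apply mul_le_mul_of_nonneg_left _ hu0
    exact hp (show ((t - n * L, u) : ℝ × ℝ) ∈ Icc (0 : ℝ) L ×ˢ Icc (0 : ℝ) R from
      ⟨⟨by simpa using h3, by show t - n * L ≤ L; linarith⟩, ⟨hu0, huR⟩⟩)
  have hall : ∀ t u : ℝ, 0 ≤ u → min ‖G γ p‖ (‖l‖ / (2 * L)) * u ≤ ‖γ (t + u) - γ t‖ := by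
    intro t u hu
    rcases le_total u R with h1 | h1
    · exact le_trans (mul_le_mul_of_nonneg_right (min_le_left _ _) hu) (hsmall t u hu h1)
    · exact le_trans (mul_le_mul_of_nonneg_right (min_le_right _ _) hu) (hbig t u h1)
  refine ⟨min ‖G γ p‖ (‖l‖ / (2 * L)), lt_min (G_ne h p) (by positivity), ?_⟩
  intro s t
  rcases le_total t s with hst | hst
  · have := hall t (s - t) (by linarith)
    rw [abs_of_nonneg (by linarith)]
    simpa using this
  · have := hall s (t - s) (by linarith)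
    rw [abs_sub_comm, abs_of_nonneg (by linarith : 0 ≤ t - s), norm_sub_rev]
    simpa using this

theorem t_CRV : S_CRV := by
  intro γ h
  obtain ⟨c, hc, harc⟩ := chord_arc h
  obtain ⟨L, l, hL, hl, hper⟩ := h.per
  have hl0 : 0 < ‖l‖ := norm_pos_iff.2 hl
  set a : ℝ := ‖l‖ with ha
  set e₁ : Pl := (1 / a) • l with he₁
  set e₂ : Pl := !₂[-(e₁ 1), e₁ 0] with he₂
  have hin : ∀ x y : Pl, ⟪x, y⟫_ℝ = x 0 * y 0 + x 1 * y 1 := by
    intro x y
    rw [PiLp.inner_apply, Fin.sum_univ_two]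
    simp [mul_comm]
  have hsq : ∀ x : Pl, ‖x‖ ^ 2 = x 0 ^ 2 + x 1 ^ 2 := by
    intro x
    rw [EuclideanSpace.norm_sq_eq, Fin.sum_univ_two]
    simp
  have hn1 : ‖e₁‖ = 1 := by
    rw [he₁, norm_smul, norm_div, norm_one, ha, norm_norm]
    field_simp
  have e20 : e₂ 0 = -(e₁ 1) := by simp [he₂]
  have e21 : e₂ 1 = e₁ 0 := by simp [he₂]
  have hs1 : e₁ 0 ^ 2 + e₁ 1 ^ 2 = 1 := by rw [← hsq, hn1]; norm_num
  have hn2 : ‖e₂‖ = 1 := by
    have : ‖e₂‖ ^ 2 = 1 := by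
      rw [hsq, e20, e21]; linarith
    nlinarith [norm_nonneg e₂]
  have horth : ⟪e₁, e₂⟫_ℝ = 0 := by
    rw [hin, e20, e21]; ring
  have hl1 : l = a • e₁ := by
    rw [he₁, smul_smul, mul_one_div_cancel hl0.ne', one_smul]
  have h11 : ⟪e₁, l⟫_ℝ = a := by
    rw [hl1, inner_smul_right, real_inner_self_eq_norm_sq, hn1]; ring
  have h21 : ⟪e₂, l⟫_ℝ = 0 := by
    rw [hl1, inner_smul_right, real_inner_comm, horth, mul_zero]
  have hdec : ∀ v : Pl, v = ⟪e₁, v⟫_ℝ • e₁ + ⟪e₂, v⟫_ℝ • e₂ := by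
    intro v
    ext i
    simp only [PiLp.add_apply, PiLp.smul_apply, smul_eq_mul, hin, e20, e21]
    fin_cases i
    · simp only [Fin.zero_eta, e20]
      linear_combination (-(v 0)) * hs1
    · simp only [Fin.mk_one, e21]
      linear_combination (-(v 1)) * hs1
  have hcont : Continuous γ := h.smooth.continuous
  have hpi := Real.pi_pos
  refine ⟨a, L, e₁, e₂, fun s => 2 * Real.pi * ⟪e₁, γ s⟫_ℝ / a, fun s => ⟪e₂, γ s⟫_ℝ, hl0, ?_, hn1, hn2,
    horth, ?_⟩
  · refine ⟨hL, by positivity, by fun_prop, by fun_prop, ?_, ?_, ?_⟩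
    · intro s
      show 2 * Real.pi * ⟪e₁, γ (s + L)⟫_ℝ / a = 2 * Real.pi * ⟪e₁, γ s⟫_ℝ / a + 2 * Real.pi
      rw [hper, inner_add_right, h11]
      field_simp
    · intro s
      show ⟪e₂, γ (s + L)⟫_ℝ = ⟪e₂, γ s⟫_ℝ
      rw [hper, inner_add_right, h21, add_zero]
    · set M : ℝ := max (a / (2 * Real.pi)) 1 with hM
      have hM0 : 0 < M := lt_of_lt_of_le one_pos (le_max_right _ _)
      refine ⟨c / M, by positivity, ?_⟩
      intro s t
      rw [div_mul_eq_mul_div, div_le_iff₀ hM0]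
      refine le_trans (harc s t) ?_
      have e1 : ‖γ s - γ t‖ ≤ |⟪e₁, γ s - γ t⟫_ℝ| + |⟪e₂, γ s - γ t⟫_ℝ| := by
        conv_lhs => rw [hdec (γ s - γ t)]
        refine le_trans (norm_add_le _ _) ?_
        rw [norm_smul ⟪e₁, γ s - γ t⟫_ℝ e₁, norm_smul ⟪e₂, γ s - γ t⟫_ℝ e₂, hn1, hn2, mul_one, mul_one,
          Real.norm_eq_abs, Real.norm_eq_abs]
      have e2 : ⟪e₁, γ s - γ t⟫_ℝ = a / (2 * Real.pi) * (2 * Real.pi * ⟪e₁, γ s⟫_ℝ / a - 2 * Real.pi * ⟪e₁, γ t⟫_ℝ / a) := by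
        rw [inner_sub_right]
        field_simp
      have e3 : ⟪e₂, γ s - γ t⟫_ℝ = ⟪e₂, γ s⟫_ℝ - ⟪e₂, γ t⟫_ℝ := inner_sub_right _ _ _
      rw [e2, e3, abs_mul, abs_of_pos (by positivity : 0 < a / (2 * Real.pi))] at e1
      have e4 : a / (2 * Real.pi) ≤ M := le_max_left _ _
      have e5 : (1 : ℝ) ≤ M := le_max_right _ _
      refine le_trans e1 ?_
      rw [add_mul]
      apply add_le_add
      · rw [mul_comm]
        exact mul_le_mul_of_nonneg_left e4 (abs_nonneg _)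
      · exact le_mul_of_one_le_right (abs_nonneg _) e5
  · intro s
    show γ s = (a * (2 * Real.pi * ⟪e₁, γ s⟫_ℝ / a) / (2 * Real.pi)) • e₁ + ⟪e₂, γ s⟫_ℝ • e₂
    have : a * (2 * Real.pi * ⟪e₁, γ s⟫_ℝ / a) / (2 * Real.pi) = ⟪e₁, γ s⟫_ℝ := by
      field_simp
    rw [this]
    exact hdec (γ s)

end Pool.Agent.H338.LK
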